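import Mathlib

set_option autoImplicit false

/-! Iterated differences tested against binomial weights. -/

namespace Pool.Agent.N543.AO.TV

open Finset

/-- the shift -/
def E : Module.End ℝ (ℕ → ℝ) where
  toFun f k := f (k + 1)
  map_add' _ _ := rfl
  map_smul' _ _ := rfl

lemma E_apply (f : ℕ → ℝ) (k : ℕ) : E f k = f (k + 1) := rfl

/-- `1 + y E` -/
noncomputable def Op (y : ℝ) : Module.End ℝ (ℕ → ℝ) := 1 + y • E

lemma Op_apply (y : ℝ) (f : ℕ → ℝ) (k : ℕ) : Op y f k = f k + y * f (k + 1) := by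
  unfold Op
  rw [LinearMap.add_apply, LinearMap.smul_apply, Module.End.one_apply, Pi.add_apply, Pi.smul_apply, E_apply,
    smul_eq_mul]

lemma Op_comm (x y : ℝ) : Commute (Op x) (Op y) := by
  unfold Op
  refine Commute.add_left (Commute.one_left _) (Commute.smul_left ?_ _)
  exact Commute.add_right (Commute.one_right _) (Commute.smul_right (Commute.refl _) _)

lemma Op_pow (y : ℝ) (N : ℕ) (f : ℕ → ℝ) (k : ℕ) :
    (Op y ^ N) f k = ∑ j ∈ range (N + 1), (N.choose j : ℝ) * y ^ j * f (k + j) := by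
  induction N generalizing k with
  | zero => simp
  | succ N ih =>
    rw [pow_succ', Module.End.mul_apply, Op_apply, ih, ih, sum_range_succ' _ (N + 1)]
    have h1 : ∑ j ∈ range (N + 1), ((N + 1).choose (j + 1) : ℝ) * y ^ (j + 1) * f (k + (j + 1)) =
        y * ∑ j ∈ range (N + 1), (N.choose j : ℝ) * y ^ j * f (k + 1 + j) +
          ∑ j ∈ range (N + 1), (N.choose (j + 1) : ℝ) * y ^ (j + 1) * f (k + (j + 1)) := by
      rw [mul_sum, ← sum_add_distrib]
      refine sum_congr rfl fun j _ => ?_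
      rw [Nat.choose_succ_succ, show k + 1 + j = k + (j + 1) by ring]
      push_cast
      ring
    have h2 : ∑ j ∈ range (N + 1), (N.choose (j + 1) : ℝ) * y ^ (j + 1) * f (k + (j + 1)) +
        (N.choose 0 : ℝ) * y ^ 0 * f (k + 0) = ∑ j ∈ range (N + 1), (N.choose j : ℝ) * y ^ j * f (k + j) := by
      rw [← sum_range_succ' (fun j => (N.choose j : ℝ) * y ^ j * f (k + j)), sum_range_succ]
      simp
    rw [h1]
    simp only [Nat.choose_zero_right] at h2 ⊢
    linarith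

lemma sum_pow (y : ℝ) (M : ℕ) : ∑ j ∈ range (M + 1), (M.choose j : ℝ) * y ^ j = (1 + y) ^ M := by
  rw [add_comm 1 y, add_pow]
  refine sum_congr rfl fun j _ => ?_
  rw [one_pow]; ring

lemma var (y : ℝ) (M : ℕ) (a : ℝ) :
    ∑ j ∈ range (M + 1), (M.choose j : ℝ) * y ^ j * (a + M * y - j * (1 + y)) ^ 2 = (1 + y) ^ M * (a ^ 2 + M * y) := by
  induction M generalizing a with
  | zero => simp
  | succ M ih =>
    have h := Op_pow y (M + 1) (fun j => (a + ((M + 1 : ℕ) : ℝ) * y - j * (1 + y)) ^ 2) 0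
    simp only [zero_add] at h
    rw [← h, pow_succ, Module.End.mul_apply, Op_pow]
    simp only [zero_add, Op_apply]
    have e : ∀ j ∈ range (M + 1), (M.choose j : ℝ) * y ^ j * ((a + ((M + 1 : ℕ) : ℝ) * y - j * (1 + y)) ^ 2 +
        y * (a + ((M + 1 : ℕ) : ℝ) * y - ((j + 1 : ℕ) : ℝ) * (1 + y)) ^ 2) =
        (M.choose j : ℝ) * y ^ j * ((a + y) + M * y - j * (1 + y)) ^ 2 +
        y * ((M.choose j : ℝ) * y ^ j * ((a - 1) + M * y - j * (1 + y)) ^ 2) := by
      intro j _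
      push_cast
      ring
    rw [sum_congr rfl e, sum_add_distrib, ← mul_sum, ih, ih]
    push_cast
    ring

/-- bounded by `c` -/
def Bd (c : ℝ) (f : ℕ → ℝ) : Prop := ∀ k, |f k| ≤ c

lemma step1 {y : ℝ} (hy : 0 ≤ y) (m : ℕ) {c : ℝ} {f : ℕ → ℝ} (hf : Bd c f) : Bd ((1 + y) ^ m * c) ((Op y ^ m) f) := by
  intro k
  rw [Op_pow, ← sum_pow, sum_mul]
  refine (abs_sum_le_sum_abs _ _).trans (sum_le_sum fun j _ => ?_)
  rw [abs_mul, abs_of_nonneg (by positivity : 0 ≤ (m.choose j : ℝ) * y ^ j)]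
  exact mul_le_mul_of_nonneg_left (hf _) (by positivity)

lemma key (y : ℝ) (m : ℕ) (f : ℕ → ℝ) (k : ℕ) :
    ((m : ℝ) + 1) * y * (Op y ^ m) (Op (-1) f) k =
      ∑ j ∈ range (m + 2), ((m + 1).choose j : ℝ) * y ^ j * (0 + ((m + 1 : ℕ) : ℝ) * y - j * (1 + y)) * f (k + j) := by
  rw [Op_pow]
  simp only [Op_apply]
  have h1 : ∑ j ∈ range (m + 2), ((m + 1).choose j : ℝ) * y ^ j * (0 + ((m + 1 : ℕ) : ℝ) * y - j * (1 + y)) * f (k + j) =
      ∑ j ∈ range (m + 2), ((m + 1).choose j : ℝ) * (((m + 1 : ℕ) : ℝ) - j) * (y ^ j * y * f (k + j)) -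
      ∑ j ∈ range (m + 2), ((m + 1).choose j : ℝ) * j * (y ^ j * f (k + j)) := by
    rw [← sum_sub_distrib]
    refine sum_congr rfl fun j _ => ?_
    ring
  have h2 : ∑ j ∈ range (m + 2), ((m + 1).choose j : ℝ) * (((m + 1 : ℕ) : ℝ) - j) * (y ^ j * y * f (k + j)) =
      ∑ j ∈ range (m + 1), (m.choose j : ℝ) * ((m : ℝ) + 1) * (y ^ j * y * f (k + j)) := by
    rw [sum_range_succ, sub_self, mul_zero, zero_mul, add_zero]
    refine sum_congr rfl fun j hj => ?_
    rw [mem_range] at hj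
    have h := Nat.choose_mul_succ_eq m j
    have h' : (m.choose j : ℝ) * ((m : ℝ) + 1) = ((m + 1).choose j : ℝ) * (((m + 1 : ℕ) : ℝ) - j) := by
      have h3 := congrArg (Nat.cast (R := ℝ)) h
      rw [Nat.cast_mul, Nat.cast_mul, Nat.cast_sub (by omega)] at h3
      push_cast at h3 ⊢
      exact h3
    rw [h']
  have h3 : ∑ j ∈ range (m + 2), ((m + 1).choose j : ℝ) * j * (y ^ j * f (k + j)) =
      ∑ j ∈ range (m + 1), (m.choose j : ℝ) * ((m : ℝ) + 1) * (y ^ j * y * f (k + j + 1)) := by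
    rw [sum_range_succ']
    simp only [Nat.cast_zero, mul_zero, zero_mul, add_zero]
    refine sum_congr rfl fun j _ => ?_
    have h := congrArg (Nat.cast (R := ℝ)) (Nat.add_one_mul_choose_eq m j)
    push_cast at h
    have h' : ((m + 1).choose (j + 1) : ℝ) * ((j + 1 : ℕ) : ℝ) = (m.choose j : ℝ) * ((m : ℝ) + 1) := by
      push_cast
      linarith
    rw [h', pow_succ, show k + (j + 1) = k + j + 1 by ring]
  rw [h1, h2, h3, mul_sum, ← sum_sub_distrib]
  refine sum_congr rfl fun j _ => ?_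
  ring

lemma step2 {y : ℝ} (hy : 0 < y) (m : ℕ) {c : ℝ} {f : ℕ → ℝ} (hf : Bd c f) :
    Bd ((1 + y) ^ (m + 1) / Real.sqrt (((m + 1 : ℕ) : ℝ) * y) * c) ((Op y ^ m * Op (-1)) f) := by
  intro k
  have hM : 0 < ((m + 1 : ℕ) : ℝ) * y := by positivity
  set s := Real.sqrt (((m + 1 : ℕ) : ℝ) * y) with hs
  have hs0 : 0 < s := Real.sqrt_pos.mpr hM
  have hs2 : s * s = ((m + 1 : ℕ) : ℝ) * y := Real.mul_self_sqrt hM.le
  have hc : 0 ≤ c := (abs_nonneg _).trans (hf 0)
  rw [Module.End.mul_apply]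
  have hk := key y m f k
  set v := (Op y ^ m) (Op (-1) f) k with hv
  have h1 : s * s * |v| ≤ c * ((1 + y) ^ (m + 1) * s) := by
    have e1 : s * s * |v| = |((m : ℝ) + 1) * y * v| := by
      rw [abs_mul, hs2, abs_of_nonneg (by positivity : 0 ≤ ((m : ℝ) + 1) * y)]
      push_cast; ring
    rw [e1, hk]
    refine (abs_sum_le_sum_abs _ _).trans ?_
    have h2 : ∀ j ∈ range (m + 2),
        |((m + 1).choose j : ℝ) * y ^ j * (0 + ((m + 1 : ℕ) : ℝ) * y - j * (1 + y)) * f (k + j)| ≤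
        c / (2 * s) * (s * s * (((m + 1).choose j : ℝ) * y ^ j) +
          ((m + 1).choose j : ℝ) * y ^ j * (0 + ((m + 1 : ℕ) : ℝ) * y - j * (1 + y)) ^ 2) := by
      intro j _
      set w := ((m + 1).choose j : ℝ) * y ^ j with hw
      have hw0 : 0 ≤ w := by positivity
      set x := (0 + ((m + 1 : ℕ) : ℝ) * y - j * (1 + y)) with hx
      rw [abs_mul, abs_mul, abs_of_nonneg hw0]
      have h3 : |x| ≤ (s * s + x ^ 2) / (2 * s) := by
        rw [le_div_iff₀ (by positivity), ← sq_abs x]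
        nlinarith [sq_nonneg (s - |x|)]
      calc w * |x| * |f (k + j)| ≤ w * ((s * s + x ^ 2) / (2 * s)) * c :=
            mul_le_mul (mul_le_mul_of_nonneg_left h3 hw0) (hf _) (abs_nonneg _) (by positivity)
        _ = c / (2 * s) * (s * s * w + w * x ^ 2) := by ring
    refine (sum_le_sum h2).trans ?_
    rw [← mul_sum, sum_add_distrib, ← mul_sum]
    have e2 := sum_pow y (m + 1)
    have e3 := var y (m + 1) 0
    rw [show m + 1 + 1 = m + 2 by ring] at e2 e3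
    rw [e2, e3, ← hs2]
    have e4 : c / (2 * s) * (s * s * (1 + y) ^ (m + 1) + (1 + y) ^ (m + 1) * (0 ^ 2 + s * s)) =
        c * ((1 + y) ^ (m + 1) * s) := by
      field_simp
      ring
    exact e4.le
  have h2 : s * |v| ≤ c * (1 + y) ^ (m + 1) := by
    have : s * (s * |v|) ≤ s * (c * (1 + y) ^ (m + 1)) := by
      calc s * (s * |v|) = s * s * |v| := by ring
        _ ≤ c * ((1 + y) ^ (m + 1) * s) := h1
        _ = s * (c * (1 + y) ^ (m + 1)) := by ring
    exact le_of_mul_le_mul_left this hs0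
  have e5 : (1 + y) ^ (m + 1) / s * c = c * (1 + y) ^ (m + 1) / s := by ring
  rw [e5, le_div_iff₀ hs0]
  linarith

lemma iter {A : ℝ} {X : Module.End ℝ (ℕ → ℝ)} (hX : ∀ (c : ℝ) (f : ℕ → ℝ), Bd c f → Bd (A * c) (X f))
    (r : ℕ) {c : ℝ} {f : ℕ → ℝ} (hf : Bd c f) : Bd (A ^ r * c) ((X ^ r) f) := by
  induction r with
  | zero => simpa using hf
  | succ r ih =>
    rw [pow_succ' X, Module.End.mul_apply, pow_succ' A, mul_assoc]
    exact hX _ _ ih

theorem bound (r N : ℕ) {y : ℝ} (hN : 1 ≤ N) (hy1 : 1 / 5 ≤ y) (hy2 : y ≤ 5) {h : ℕ → ℝ} (hh : Bd 1 h) :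
    |(Op y ^ N) ((Op (-1) ^ r) h) 0| ≤ (6 * Real.sqrt (5 * ((r : ℝ) + 1))) ^ r * (1 + y) ^ N / Real.sqrt N ^ r := by
  have hy : 0 < y := by linarith
  set m := N / r with hm
  have hmr : r * m ≤ N := Nat.mul_div_le N r
  have e1 : Op y ^ N * Op (-1) ^ r = Op y ^ (N - r * m) * (Op y ^ m * Op (-1)) ^ r := by
    rw [((Op_comm y (-1)).pow_left m).mul_pow, ← pow_mul, ← mul_assoc, ← pow_add]
    congr 2
    rw [mul_comm m r]; omega
  have e2 : (Op y ^ N) ((Op (-1) ^ r) h) = (Op y ^ (N - r * m)) (((Op y ^ m * Op (-1)) ^ r) h) := by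
    rw [← Module.End.mul_apply, e1, Module.End.mul_apply]
  have h1 := iter (fun c f hf => step2 hy m hf) r hh
  have h2 := step1 hy.le (N - r * m) h1 0
  rw [← e2, mul_one] at h2
  refine h2.trans ?_
  rcases Nat.eq_zero_or_pos r with h0 | h0
  · subst h0
    simp
  · have hN0 : (0:ℝ) < N := by exact_mod_cast hN
    have h3 : (N : ℝ) ≤ ((m + 1 : ℕ) : ℝ) * r := by
      have : N < (m + 1) * r := by
        have := Nat.lt_div_mul_add (a := N) h0
        calc N < N / r * r + r := this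
          _ = (m + 1) * r := by rw [hm]; ring
      exact_mod_cast this.le
    have h4 : (1 + y) ^ (m + 1) / Real.sqrt (((m + 1 : ℕ) : ℝ) * y) ≤
        (1 + y) ^ m * (6 * Real.sqrt (5 * ((r : ℝ) + 1)) / Real.sqrt N) := by
      rw [pow_succ, mul_div_assoc]
      refine mul_le_mul_of_nonneg_left ?_ (by positivity)
      rw [div_le_div_iff₀ (Real.sqrt_pos.mpr (by positivity)) (Real.sqrt_pos.mpr hN0)]
      have h5 : Real.sqrt N ≤ Real.sqrt (5 * ((r : ℝ) + 1)) * Real.sqrt (((m + 1 : ℕ) : ℝ) * y) := by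
        rw [← Real.sqrt_mul (by positivity)]
        refine Real.sqrt_le_sqrt ?_
        have h6 : (1:ℝ) ≤ 5 * y := by linarith
        have hm0 : (0:ℝ) ≤ ((m + 1 : ℕ) : ℝ) := by positivity
        calc (N : ℝ) ≤ ((m + 1 : ℕ) : ℝ) * r := h3
          _ ≤ ((m + 1 : ℕ) : ℝ) * ((r : ℝ) + 1) := mul_le_mul_of_nonneg_left (by linarith) hm0
          _ = (((m + 1 : ℕ) : ℝ) * ((r : ℝ) + 1)) * 1 := by ring
          _ ≤ (((m + 1 : ℕ) : ℝ) * ((r : ℝ) + 1)) * (5 * y) := mul_le_mul_of_nonneg_left h6 (by positivity)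
          _ = 5 * ((r : ℝ) + 1) * (((m + 1 : ℕ) : ℝ) * y) := by ring
      calc (1 + y) * Real.sqrt N ≤ 6 * (Real.sqrt (5 * ((r : ℝ) + 1)) * Real.sqrt (((m + 1 : ℕ) : ℝ) * y)) :=
            mul_le_mul (by linarith) h5 (Real.sqrt_nonneg _) (by norm_num)
        _ = _ := by ring
    have h7 : ((1 + y) ^ (m + 1) / Real.sqrt (((m + 1 : ℕ) : ℝ) * y)) ^ r ≤
        ((1 + y) ^ m * (6 * Real.sqrt (5 * ((r : ℝ) + 1)) / Real.sqrt N)) ^ r :=
      pow_le_pow_left₀ (by positivity) h4 r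
    calc (1 + y) ^ (N - r * m) * ((1 + y) ^ (m + 1) / Real.sqrt (((m + 1 : ℕ) : ℝ) * y)) ^ r
        ≤ (1 + y) ^ (N - r * m) * ((1 + y) ^ m * (6 * Real.sqrt (5 * ((r : ℝ) + 1)) / Real.sqrt N)) ^ r :=
          mul_le_mul_of_nonneg_left h7 (by positivity)
      _ = ((1 + y) ^ (N - r * m) * (1 + y) ^ (m * r)) * ((6 * Real.sqrt (5 * ((r : ℝ) + 1))) ^ r / Real.sqrt N ^ r) := by
          rw [mul_pow, ← pow_mul, div_pow]; ring
      _ = (1 + y) ^ N * ((6 * Real.sqrt (5 * ((r : ℝ) + 1))) ^ r / Real.sqrt N ^ r) := by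
          rw [← pow_add]
          congr 2
          rw [mul_comm m r]; omega
      _ = _ := by ring

end Pool.Agent.N543.AO.TV
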