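import Pool.Agent.N949.AO.Def
import Pool.Agent.N543.AO.TVbase

set_option autoImplicit false

/-! Iterated differences tested against binomial weights: the statement of project AO2. -/

namespace Pool.Agent.N543.AO.TV

open Finset

theorem tv : Pool.Agent.N949.AO.S_TV := by
  intro r
  refine ⟨(6 * Real.sqrt (5 * ((r : ℝ) + 1))) ^ r, by positivity, ?_⟩
  intro N y h hN hy1 hy2 hh
  have h1 := bound r N hN hy1 hy2 hh
  have e : ∑ k ∈ range (N + 1), (N.choose k : ℝ) * y ^ k *
      ∑ i ∈ range (r + 1), (-1 : ℝ) ^ i * (r.choose i : ℝ) * h (k + i) =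
      (Op y ^ N) ((Op (-1) ^ r) h) 0 := by
    rw [Op_pow]
    refine sum_congr rfl fun k _ => ?_
    rw [Op_pow, zero_add]
    congr 1
    refine sum_congr rfl fun i _ => ?_
    ring
  rw [e]
  exact h1

end Pool.Agent.N543.AO.TV
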